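import Pool.Agent.Helper57.Dens.Merge

open Filter Topology

namespace Helper57.Dens

/-- A sequence that is `o(n)` is bounded by `η n + C`. -/
theorem lin_bound {u : ℕ → ℝ} (hu : Tendsto (fun n => u n / n) atTop (𝓝 0)) {η : ℝ}
    (hη : 0 < η) : ∃ C : ℝ, 0 ≤ C ∧ ∀ n, |u n| ≤ η * n + C := by
  obtain ⟨N, hN⟩ := (Metric.tendsto_atTop.mp hu) η hη
  refine ⟨∑ i ∈ Finset.range (N + 1), |u i|, Finset.sum_nonneg (fun _ _ => abs_nonneg _), ?_⟩
  intro n
  rcases Nat.lt_or_ge n (N + 1) with h | h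
  · have h1 : |u n| ≤ ∑ i ∈ Finset.range (N + 1), |u i| :=
      Finset.single_le_sum (f := fun i => |u i|) (fun _ _ => abs_nonneg _)
        (Finset.mem_range.mpr h)
    have h2 : 0 ≤ η * n := by positivity
    linarith
  · have h1 := hN n (by omega)
    rw [Real.dist_eq, sub_zero, abs_div, Nat.abs_cast] at h1
    have hn : (0 : ℝ) < n := by
      have : 0 < n := by omega
      exact_mod_cast this
    rw [div_lt_iff₀ hn] at h1
    have h2 : 0 ≤ ∑ i ∈ Finset.range (N + 1), |u i| :=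
      Finset.sum_nonneg (fun _ _ => abs_nonneg _)
    linarith

theorem abs_sum_le_card {w : ℕ → ℝ} (hw : ∀ x, |w x| ≤ 1) (Q : Finset ℕ) :
    |∑ x ∈ Q, w x| ≤ Q.card := by
  refine (Finset.abs_sum_le_sum_abs _ _).trans ?_
  refine (Finset.sum_le_sum (fun x _ => hw x)).trans ?_
  simp

variable (θ : ℕ → Equiv.Perm ℕ)

theorem pos_lt {π : Equiv.Perm ℕ} (hπ : ∀ x y, π x < π y ↔ key θ x < key θ y) {m x : ℕ}
    (hx : x ∈ SS θ m) : π x < 2 ^ m := by
  have h1 : (Finset.range (π x + 1)).image π.symm ⊆ SS θ m := by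
    intro y hy
    rw [mem_image_symm] at hy
    have h2 : ¬ key θ x < key θ y := by
      rw [← hπ]
      omega
    rw [← blk_le_iff]
    exact (blk_le_of_key θ (not_lt.mp h2)).trans ((blk_le_iff θ).mpr hx)
  have h2 := (Finset.card_le_card h1).trans (card_SS θ m)
  rw [Finset.card_image_of_injective _ π.symm.injective, Finset.card_range] at h2
  omega

/-- The sum over the elements of a block with a given answer. -/
theorem answer_sum {π : Equiv.Perm ℕ} (hπ : ∀ x y, π x < π y ↔ key θ x < key θ y)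
    {w : ℕ → ℝ} {D : ℝ} (hD : 0 ≤ D) {m i I : ℕ} (hi : i < I) (hI : I ≤ m)
    (h : ∀ n ≤ 2 ^ m, |psum π w n| ≤ D) :
    |∑ x ∈ (SS θ m).filter (fun x => blk θ x = m ∧ qq θ m x i), w x| ≤ 2 ^ I * (2 * D) := by
  classical
  set Q := (SS θ m).filter (fun x => blk θ x = m ∧ qq θ m x i) with hQ
  have hQmem : ∀ x, x ∈ Q ↔ blk θ x = m ∧ qq θ m x i := by
    intro x
    rw [hQ, Finset.mem_filter]
    constructor
    · exact fun h => h.2
    · intro h
      exact ⟨(blk_le_iff θ).mp h.1.le, h⟩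
  have h1 : ∑ x ∈ Q, w x = ∑ v ∈ Finset.range (2 ^ I),
      ∑ x ∈ Q.filter (fun x => code θ m x I = v), w x := by
    rw [Finset.sum_fiberwise_of_maps_to]
    intro x _
    exact Finset.mem_range.mpr (code_lt θ m x I)
  rw [h1]
  refine (Finset.abs_sum_le_sum_abs _ _).trans ?_
  have h2 : ∀ v ∈ Finset.range (2 ^ I),
      |∑ x ∈ Q.filter (fun x => code θ m x I = v), w x| ≤ 2 * D := by
    intro v _
    apply convex_sum (π := π) (N := 2 ^ m) hD h
    · intro x hx
      have hx' := (hQmem x).mp (Finset.mem_filter.mp hx).1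
      exact pos_lt θ hπ ((blk_le_iff θ).mp hx'.1.le)
    · intro x hx z hz y hxy hyz
      obtain ⟨hx1, hx2⟩ := Finset.mem_filter.mp hx
      obtain ⟨hz1, hz2⟩ := Finset.mem_filter.mp hz
      obtain ⟨hx3, hx4⟩ := (hQmem x).mp hx1
      obtain ⟨hz3, hz4⟩ := (hQmem z).mp hz1
      have k1 : key θ x ≤ key θ y := by
        by_contra hcon
        have := (hπ y x).mpr (not_le.mp hcon)
        omega
      have k2 : key θ y ≤ key θ z := by
        by_contra hcon
        have := (hπ z y).mpr (not_le.mp hcon)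
        omega
      have hy3 : blk θ y = m :=
        le_antisymm ((blk_le_of_key θ k2).trans hz3.le) (hx3.ge.trans (blk_le_of_key θ k1))
      have c1 := code_mono θ hI (code_le_of_key θ hx3 hy3 k1)
      have c2 := code_mono θ hI (code_le_of_key θ hy3 hz3 k2)
      have hy2 : code θ m y I = v := by omega
      rw [Finset.mem_filter, hQmem]
      refine ⟨⟨hy3, ?_⟩, hy2⟩
      rw [qq_iff_of_code θ hi (hy2.trans hx2.symm)]
      exact hx4
  refine (Finset.sum_le_sum h2).trans ?_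
  rw [Finset.sum_const, Finset.card_range, nsmul_eq_mul]
  push_cast
  exact le_rfl

/-- The main estimate. -/
theorem main_estimate {π : Equiv.Perm ℕ} (hπ : ∀ x y, π x < π y ↔ key θ x < key θ y)
    {w : ℕ → ℝ} (hw : ∀ x, |w x| ≤ 1) {η C : ℝ} (hη : 0 ≤ η) (hC : 0 ≤ C)
    (hlin : ∀ n, |psum π w n| ≤ η * n + C) {j b L I n M : ℕ}
    (hI : ∀ a ≤ 2 ^ (b + L), Nat.pair j (Nat.pair a b) < I) (hn : n ≤ 2 ^ (M - j - 1))
    (hjM : j < M) (hM : L + I + b ≤ M) :
    |psum (θ j) w n| ≤ 2 ^ (M - L) +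
      (L + 1) * (2 ^ I * (2 * (η * 2 ^ M + C)) + 2 ^ (M - b)) := by
  classical
  set R : Finset ℕ := (Finset.range n).image (θ j).symm with hR
  have hRmem : ∀ x, x ∈ R ↔ θ j x < n := fun x => mem_image_symm
  have hRS : ∀ x ∈ R, blk θ x ≤ M := by
    intro x hx
    rw [blk_le_iff, mem_SS]
    exact ⟨j, hjM, lt_of_lt_of_le ((hRmem x).mp hx) hn⟩
  have hD0 : 0 ≤ η * 2 ^ M + C := by positivity
  have hD : ∀ m ≤ M, ∀ k ≤ 2 ^ m, |psum π w k| ≤ η * 2 ^ M + C := by
    intro m hm k hk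
    refine (hlin k).trans ?_
    have h1 : (k : ℝ) ≤ 2 ^ M := by
      have h2 : k ≤ 2 ^ M := hk.trans (Nat.pow_le_pow_right (by norm_num) hm)
      exact_mod_cast h2
    have h2 := mul_le_mul_of_nonneg_left h1 hη
    linarith
  -- the contribution of one block
  have hblock : ∀ m ∈ Finset.Icc (M - L) M,
      |∑ x ∈ (R.filter (fun x => ¬ blk θ x < M - L)).filter (fun x => blk θ x = m), w x| ≤
        2 ^ I * (2 * (η * 2 ^ M + C)) + 2 ^ (M - b) := by
    intro m hm
    rw [Finset.mem_Icc] at hm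
    set a := n * 2 ^ b / 2 ^ m with ha
    have ha1 : a * 2 ^ m ≤ n * 2 ^ b := Nat.div_mul_le_self _ _
    have ha2 : n * 2 ^ b < (a + 1) * 2 ^ m := by
      rw [add_mul, one_mul]
      exact Nat.lt_div_mul_add (by positivity)
    have ha3 : a ≤ 2 ^ (b + L) := by
      have h1 : n * 2 ^ b ≤ 2 ^ (b + L) * 2 ^ m := by
        calc n * 2 ^ b ≤ 2 ^ (M - j - 1) * 2 ^ b := Nat.mul_le_mul_right _ hn
          _ = 2 ^ (M - j - 1 + b) := (pow_add _ _ _).symm
          _ ≤ 2 ^ (b + L + m) := Nat.pow_le_pow_right (by norm_num) (by omega)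
          _ = 2 ^ (b + L) * 2 ^ m := pow_add _ _ _
      exact Nat.div_le_of_le_mul (by rw [mul_comm (2 ^ m)]; exact h1)
    set i := Nat.pair j (Nat.pair a b) with hi
    have hiI : i < I := hI a ha3
    have hqq : ∀ x, qq θ m x i ↔ 2 ^ b * θ j x < a * 2 ^ m := by
      intro x
      unfold qq
      rw [hi, Nat.unpair_pair, Nat.unpair_pair]
    have hbm : b ≤ m := by omega
    set Rm := (R.filter (fun x => ¬ blk θ x < M - L)).filter (fun x => blk θ x = m) with hRm
    have hRmmem : ∀ x, x ∈ Rm ↔ θ j x < n ∧ blk θ x = m := by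
      intro x
      rw [hRm, Finset.mem_filter, Finset.mem_filter, hRmem]
      constructor
      · exact fun h => ⟨h.1.1, h.2⟩
      · exact fun h => ⟨⟨h.1, by omega⟩, h.2⟩
    have hQ : Rm.filter (fun x => qq θ m x i) =
        (SS θ m).filter (fun x => blk θ x = m ∧ qq θ m x i) := by
      ext x
      rw [Finset.mem_filter, hRmmem, Finset.mem_filter]
      constructor
      · rintro ⟨⟨-, h2⟩, h3⟩
        exact ⟨(blk_le_iff θ).mp h2.le, h2, h3⟩
      · rintro ⟨-, h2, h3⟩
        refine ⟨⟨?_, h2⟩, h3⟩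
        rw [hqq] at h3
        have h4 : 2 ^ b * θ j x < n * 2 ^ b := lt_of_lt_of_le h3 ha1
        rw [mul_comm n] at h4
        exact lt_of_mul_lt_mul_left h4 (Nat.zero_le _)
    have h1 : |∑ x ∈ Rm.filter (fun x => qq θ m x i), w x| ≤
        2 ^ I * (2 * (η * 2 ^ M + C)) := by
      rw [hQ]
      exact answer_sum θ hπ hD0 hiI (by omega) (hD m hm.2)
    have h2 : |∑ x ∈ Rm.filter (fun x => ¬ qq θ m x i), w x| ≤ 2 ^ (M - b) := by
      refine (abs_sum_le_card hw _).trans ?_
      have h3 : (Rm.filter (fun x => ¬ qq θ m x i)).card ≤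
          (Finset.Ico (a * 2 ^ (m - b)) ((a + 1) * 2 ^ (m - b))).card := by
        apply Finset.card_le_card_of_injOn (θ j)
        · intro x hx
          obtain ⟨hx1, hx2⟩ := Finset.mem_filter.mp hx
          have hx3 := ((hRmmem x).mp hx1).1
          rw [hqq, not_lt] at hx2
          have hpow : (2 : ℕ) ^ m = 2 ^ (m - b) * 2 ^ b := by
            rw [← pow_add]
            congr 1
            omega
          rw [Finset.mem_coe, Finset.mem_Ico]
          constructor
          · rw [hpow, ← mul_assoc, mul_comm (2 ^ b) (θ j x)] at hx2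
            exact le_of_mul_le_mul_right hx2 (by positivity)
          · rw [hpow, ← mul_assoc] at ha2
            exact hx3.trans (lt_of_mul_lt_mul_right ha2 (Nat.zero_le _))
        · exact (θ j).injective.injOn
      rw [Nat.card_Ico, add_mul, one_mul, Nat.add_sub_cancel_left] at h3
      have h4 : (Rm.filter (fun x => ¬ qq θ m x i)).card ≤ 2 ^ (M - b) :=
        h3.trans (Nat.pow_le_pow_right (by norm_num) (by omega))
      exact_mod_cast h4
    rw [← Finset.sum_filter_add_sum_filter_not Rm (fun x => qq θ m x i)]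
    exact (abs_add_le _ _).trans (add_le_add h1 h2)
  rw [psum_eq, ← Finset.sum_filter_add_sum_filter_not R (fun x => blk θ x < M - L)]
  refine (abs_add_le _ _).trans (add_le_add ?_ ?_)
  · refine (abs_sum_le_card hw _).trans ?_
    have h1 : R.filter (fun x => blk θ x < M - L) ⊆ SS θ (M - L) := by
      intro x hx
      rw [← blk_le_iff]
      exact (Finset.mem_filter.mp hx).2.le
    have h2 := (Finset.card_le_card h1).trans (card_SS θ (M - L))
    exact_mod_cast h2
  · have h1 : ∑ x ∈ R.filter (fun x => ¬ blk θ x < M - L), w x = ∑ m ∈ Finset.Icc (M - L) M,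
        ∑ x ∈ (R.filter (fun x => ¬ blk θ x < M - L)).filter (fun x => blk θ x = m), w x := by
      rw [Finset.sum_fiberwise_of_maps_to]
      intro x hx
      obtain ⟨hx1, hx2⟩ := Finset.mem_filter.mp hx
      exact Finset.mem_Icc.mpr ⟨not_lt.mp hx2, hRS x hx1⟩
    rw [h1]
    refine (Finset.abs_sum_le_sum_abs _ _).trans ((Finset.sum_le_sum hblock).trans ?_)
    rw [Finset.sum_const, Nat.card_Icc, nsmul_eq_mul]
    have h2 : M + 1 - (M - L) = L + 1 := by omega
    rw [h2]
    push_cast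
    exact le_rfl

/-- Merging lemma: for countably many permutations there is one permutation `π` such that
`o(n)` partial sums along `π` imply `o(n)` partial sums along all of them. -/
theorem merging : ∃ π : Equiv.Perm ℕ, ∀ w : ℕ → ℝ, (∀ x, |w x| ≤ 1) →
    Tendsto (fun n => psum π w n / n) atTop (𝓝 0) →
    ∀ j, Tendsto (fun n => psum (θ j) w n / n) atTop (𝓝 0) := by
  obtain ⟨π, hπ⟩ := exists_perm_of_key (key θ) (key_inj θ)
  refine ⟨π, fun w hw hlim j => ?_⟩
  rw [Metric.tendsto_atTop]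
  intro ε hε
  have hexp : ∀ δ : ℝ, 0 < δ → ∀ c : ℝ, 0 < c → ∃ k : ℕ, c / 2 ^ k < δ := by
    intro δ hδ c hc
    obtain ⟨k, hk⟩ := exists_pow_lt_of_lt_one (div_pos hδ hc) (by norm_num : (1 / 2 : ℝ) < 1)
    refine ⟨k, ?_⟩
    rw [lt_div_iff₀ hc] at hk
    rw [div_lt_iff₀ (by positivity)]
    have h1 : (1 / 2 : ℝ) ^ k * 2 ^ k = 1 := by
      rw [← mul_pow]
      norm_num
    nlinarith [pow_pos (by norm_num : (0 : ℝ) < 2) k]
  obtain ⟨L, hL⟩ := hexp (ε / 4) (by positivity) (2 ^ (j + 2)) (by positivity)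
  obtain ⟨b, hb⟩ := hexp (ε / 4) (by positivity) ((L + 1) * 2 ^ (j + 2)) (by positivity)
  set I := (Finset.range (2 ^ (b + L) + 1)).sup (fun a => Nat.pair j (Nat.pair a b)) + 1 with hI
  have hI' : ∀ a ≤ 2 ^ (b + L), Nat.pair j (Nat.pair a b) < I := by
    intro a ha
    have h1 : Nat.pair j (Nat.pair a b) ≤
        (Finset.range (2 ^ (b + L) + 1)).sup (fun a => Nat.pair j (Nat.pair a b)) :=
      Finset.le_sup (f := fun a => Nat.pair j (Nat.pair a b))
        (Finset.mem_range.mpr (Nat.lt_succ_of_le ha))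
    omega
  set η : ℝ := ε / (4 * ((L + 1) * (2 ^ I * 2 * 2 ^ (j + 2)))) with hη
  have hη0 : 0 < η := by positivity
  obtain ⟨C, hC, hlin⟩ := lin_bound hlim hη0
  obtain ⟨N, hN⟩ := exists_nat_gt ((L + 1) * (2 ^ I * (2 * C)) / (ε / 4))
  refine ⟨max N (2 ^ (L + I + b)) + 1, fun n hn => ?_⟩
  have hn1 : N < n := by omega
  have hn2 : 2 ^ (L + I + b) < n := by omega
  have hn3 : 1 < n := by
    have : 1 ≤ 2 ^ (L + I + b) := Nat.one_le_two_pow
    omega
  have hn0 : (0 : ℝ) < n := by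
    have : 0 < n := by omega
    exact_mod_cast this
  set K := Nat.clog 2 n with hK
  have hK1 : n ≤ 2 ^ K := Nat.le_pow_clog (by norm_num) n
  have hK2 : 2 ^ (K - 1) < n := Nat.pow_pred_clog_lt_self (by norm_num) hn3
  have hK3 : L + I + b < K := by
    by_contra hcon
    have h1 : 2 ^ K ≤ 2 ^ (L + I + b) := Nat.pow_le_pow_right (by norm_num) (not_lt.mp hcon)
    omega
  set M := K + j + 1 with hM
  have hest := main_estimate θ hπ hw hη0.le hC hlin (j := j) (b := b) (L := L) (I := I) (n := n)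
    (M := M) hI' (by
      have : M - j - 1 = K := by omega
      rw [this]
      exact hK1) (by omega) (by omega)
  have hM2 : (2 : ℝ) ^ M ≤ 2 ^ (j + 2) * n := by
    have h1 : 2 ^ M = 2 ^ (j + 2) * 2 ^ (K - 1) := by
      rw [← pow_add]
      congr 1
      omega
    have h2 : 2 ^ M ≤ 2 ^ (j + 2) * n := by
      rw [h1]
      exact Nat.mul_le_mul_left _ hK2.le
    exact_mod_cast h2
  have hML : (2 : ℝ) ^ (M - L) = 2 ^ M / 2 ^ L := by
    rw [eq_div_iff (by positivity), ← pow_add]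
    congr 1
    omega
  have hMb : (2 : ℝ) ^ (M - b) = 2 ^ M / 2 ^ b := by
    rw [eq_div_iff (by positivity), ← pow_add]
    congr 1
    omega
  rw [Real.dist_eq, sub_zero, abs_div, Nat.abs_cast, div_lt_iff₀ hn0]
  refine lt_of_le_of_lt hest ?_
  rw [hML, hMb]
  have e1 : (2 : ℝ) ^ M / 2 ^ L < ε / 4 * n := by
    calc (2 : ℝ) ^ M / 2 ^ L ≤ 2 ^ (j + 2) * n / 2 ^ L :=
          div_le_div_of_nonneg_right hM2 (by positivity)
      _ = 2 ^ (j + 2) / 2 ^ L * n := by ring
      _ < ε / 4 * n := mul_lt_mul_of_pos_right hL hn0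
  have e2 : ((L : ℝ) + 1) * (2 ^ M / 2 ^ b) < ε / 4 * n := by
    calc ((L : ℝ) + 1) * (2 ^ M / 2 ^ b) ≤ (L + 1) * (2 ^ (j + 2) * n / 2 ^ b) := by
          apply mul_le_mul_of_nonneg_left _ (by positivity)
          exact div_le_div_of_nonneg_right hM2 (by positivity)
      _ = (L + 1) * 2 ^ (j + 2) / 2 ^ b * n := by ring
      _ < ε / 4 * n := mul_lt_mul_of_pos_right hb hn0
  have e3 : ((L : ℝ) + 1) * (2 ^ I * (2 * (η * 2 ^ M))) ≤ ε / 4 * n := by
    calc ((L : ℝ) + 1) * (2 ^ I * (2 * (η * 2 ^ M)))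
        ≤ (L + 1) * (2 ^ I * (2 * (η * (2 ^ (j + 2) * n)))) := by
          apply mul_le_mul_of_nonneg_left _ (by positivity)
          apply mul_le_mul_of_nonneg_left _ (by positivity)
          apply mul_le_mul_of_nonneg_left _ (by positivity)
          exact mul_le_mul_of_nonneg_left hM2 hη0.le
      _ = ε / 4 * n := by
        rw [hη]
        field_simp
  have e4 : ((L : ℝ) + 1) * (2 ^ I * (2 * C)) < ε / 4 * n := by
    have h1 : (N : ℝ) < n := by exact_mod_cast hn1
    have h2 := hN.trans h1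
    rw [div_lt_iff₀ (by positivity)] at h2
    linarith
  have e5 : ((L : ℝ) + 1) * (2 ^ I * (2 * (η * 2 ^ M + C)) + 2 ^ M / 2 ^ b) =
      (L + 1) * (2 ^ I * (2 * (η * 2 ^ M))) + (L + 1) * (2 ^ I * (2 * C)) +
        (L + 1) * (2 ^ M / 2 ^ b) := by ring
  rw [e5]
  linarith

end Helper57.Dens
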