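import Pool.Agent.Helper57.Dens.Defs
import Pool.Agent.Helper57.Dens.Merge2

open Filter Topology Cardinal

namespace Helper57.Dens

/-- indicator function -/
noncomputable def ind (A : Set ℕ) (x : ℕ) : ℝ := by
  classical
  exact if x ∈ A then 1 else 0

theorem ncard_eq (A : Set ℕ) (n : ℕ) :
    ((A ∩ Set.Iio n).ncard : ℝ) = ∑ i ∈ Finset.range n, ind A i := by
  classical
  have h1 : A ∩ Set.Iio n = ((Finset.range n).filter (fun x => x ∈ A) : Finset ℕ) := by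
    ext x
    simp [and_comm]
  rw [h1, Set.ncard_coe_finset, Finset.card_filter]
  push_cast
  rfl

theorem ind_image (π : Equiv.Perm ℕ) (A : Set ℕ) (x : ℕ) : ind (π '' A) x = ind A (π.symm x) := by
  classical
  unfold ind
  have : x ∈ π '' A ↔ π.symm x ∈ A := by
    constructor
    · rintro ⟨a, ha, rfl⟩
      rwa [Equiv.symm_apply_apply]
    · intro h
      exact ⟨_, h, Equiv.apply_symm_apply _ _⟩
  by_cases h : x ∈ π '' A
  · rw [if_pos h, if_pos (this.mp h)]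
  · rw [if_neg h, if_neg (fun h' => h (this.mpr h'))]

theorem hasDens_image_iff (π : Equiv.Perm ℕ) (A : Set ℕ) (ρ : ℝ) :
    HasDens (π '' A) ρ ↔
      Tendsto (fun n => psum π (fun x => ind A x - ρ) n / n) atTop (𝓝 0) := by
  unfold HasDens
  have h1 : ∀ n : ℕ, n ≠ 0 → ((π '' A ∩ Set.Iio n).ncard : ℝ) / n =
      psum π (fun x => ind A x - ρ) n / n + ρ := by
    intro n hn
    rw [ncard_eq]
    unfold psum
    rw [Finset.sum_sub_distrib, Finset.sum_const, Finset.card_range, nsmul_eq_mul]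
    simp_rw [ind_image]
    have : (n : ℝ) ≠ 0 := by exact_mod_cast hn
    field_simp
    ring
  have h2 : (fun n : ℕ => ((π '' A ∩ Set.Iio n).ncard : ℝ) / n) =ᶠ[atTop]
      (fun n => psum π (fun x => ind A x - ρ) n / n + ρ) := by
    filter_upwards [eventually_gt_atTop 0] with n hn
    exact h1 n (by omega)
  rw [tendsto_congr' h2]
  constructor
  · intro h
    have := h.sub_const ρ
    simpa using this
  · intro h
    have := h.add_const ρ
    simpa using this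

theorem hasDens_range {A : Set ℕ} {ρ : ℝ} (h : HasDens A ρ) : 0 ≤ ρ ∧ ρ ≤ 1 := by
  constructor
  · refine ge_of_tendsto' h (fun n => by positivity)
  · refine le_of_tendsto h ?_
    filter_upwards [eventually_gt_atTop 0] with n hn
    rw [div_le_one (by exact_mod_cast hn)]
    have h1 : (A ∩ Set.Iio n).ncard ≤ (Set.Iio n).ncard :=
      Set.ncard_le_ncard Set.inter_subset_right (Set.finite_Iio n)
    have h2 : (Set.Iio n).ncard = n := by
      rw [← Finset.coe_range, Set.ncard_coe_finset, Finset.card_range]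
    rw [h2] at h1
    exact_mod_cast h1

theorem ind_sub_abs (A : Set ℕ) {ρ : ℝ} (h0 : 0 ≤ ρ) (h1 : ρ ≤ 1) (x : ℕ) :
    |ind A x - ρ| ≤ 1 := by
  classical
  unfold ind
  split_ifs
  · rw [abs_le]
    constructor <;> linarith
  · rw [abs_le]
    constructor <;> linarith

/-- Merging lemma for densities. -/
theorem merging_dens (θ : ℕ → Equiv.Perm ℕ) : ∃ π : Equiv.Perm ℕ, ∀ (A : Set ℕ) (ρ : ℝ),
    HasDens (π '' A) ρ → ∀ j, HasDens (θ j '' A) ρ := by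
  obtain ⟨π, hπ⟩ := merging θ
  refine ⟨π, fun A ρ h j => ?_⟩
  obtain ⟨h0, h1⟩ := hasDens_range h
  rw [hasDens_image_iff] at h ⊢
  exact hπ _ (ind_sub_abs A h0 h1) h j

/-- A set of given density. -/
theorem exists_dens {ρ : ℝ} (h0 : 0 ≤ ρ) (h1 : ρ ≤ 1) : ∃ Z : Set ℕ, HasDens Z ρ := by
  classical
  let Z : Set ℕ := {n | ⌊(n : ℝ) * ρ⌋₊ < ⌊((n + 1 : ℕ) : ℝ) * ρ⌋₊}
  have hstep : ∀ n : ℕ, ⌊((n + 1 : ℕ) : ℝ) * ρ⌋₊ = ⌊(n : ℝ) * ρ⌋₊ + (if n ∈ Z then 1 else 0) := by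
    intro n
    have h2 : ⌊(n : ℝ) * ρ⌋₊ ≤ ⌊((n + 1 : ℕ) : ℝ) * ρ⌋₊ := by
      apply Nat.floor_le_floor
      push_cast
      nlinarith
    have h3 : ⌊((n + 1 : ℕ) : ℝ) * ρ⌋₊ ≤ ⌊(n : ℝ) * ρ⌋₊ + 1 := by
      rw [← Nat.floor_add_one (by positivity)]
      apply Nat.floor_le_floor
      push_cast
      nlinarith
    by_cases h : n ∈ Z
    · rw [if_pos h]
      have h4 : ⌊(n : ℝ) * ρ⌋₊ < ⌊((n + 1 : ℕ) : ℝ) * ρ⌋₊ := h
      omega
    · rw [if_neg h]
      have h4 : ¬ ⌊(n : ℝ) * ρ⌋₊ < ⌊((n + 1 : ℕ) : ℝ) * ρ⌋₊ := h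
      omega
  have hcount : ∀ n : ℕ, ((Z ∩ Set.Iio n).ncard : ℝ) = (⌊(n : ℝ) * ρ⌋₊ : ℝ) := by
    intro n
    rw [ncard_eq]
    induction n with
    | zero => simp
    | succ n ih =>
      rw [Finset.sum_range_succ, ih, hstep]
      push_cast
      unfold ind
      by_cases h : n ∈ Z
      · rw [if_pos h, if_pos h]
      · rw [if_neg h, if_neg h]
  refine ⟨Z, ?_⟩
  unfold HasDens
  simp_rw [hcount]
  have h2 : Tendsto (fun x : ℝ => (⌊ρ * x⌋₊ : ℝ) / x) atTop (𝓝 ρ) :=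
    tendsto_nat_floor_mul_div_atTop h0
  have h3 := h2.comp tendsto_natCast_atTop_atTop
  refine h3.congr (fun n => ?_)
  show (⌊ρ * (n : ℝ)⌋₊ : ℝ) / n = (⌊(n : ℝ) * ρ⌋₊ : ℝ) / n
  rw [mul_comm]

theorem hasDens_infinite {A : Set ℕ} {ρ : ℝ} (h : HasDens A ρ) (h0 : 0 < ρ) : A.Infinite := by
  intro hfin
  have h1 : Tendsto (fun n : ℕ => ((A ∩ Set.Iio n).ncard : ℝ) / n) atTop (𝓝 0) := by
    refine squeeze_zero (g := fun n : ℕ => (A.ncard : ℝ) / n) (fun n => by positivity) ?_ ?_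
    · intro n
      apply div_le_div_of_nonneg_right _ (by positivity)
      exact_mod_cast Set.ncard_le_ncard Set.inter_subset_left hfin
    · exact tendsto_const_div_atTop_nhds_zero_nat _
  have := tendsto_nhds_unique h h1
  linarith

theorem ind_compl (A : Set ℕ) (x : ℕ) : ind Aᶜ x = 1 - ind A x := by
  classical
  unfold ind
  by_cases h : x ∈ A
  · have h' : x ∉ Aᶜ := fun h' => h' h
    rw [if_pos h, if_neg h']
    norm_num
  · have h' : x ∈ Aᶜ := h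
    rw [if_neg h, if_pos h']
    norm_num

theorem hasDens_compl {A : Set ℕ} {ρ : ℝ} (h : HasDens A ρ) : HasDens Aᶜ (1 - ρ) := by
  unfold HasDens at h ⊢
  have h1 := h.const_sub 1
  refine h1.congr' ?_
  filter_upwards [eventually_gt_atTop 0] with n hn
  have hn' : (n : ℝ) ≠ 0 := by
    have : n ≠ 0 := by omega
    exact_mod_cast this
  rw [ncard_eq, ncard_eq]
  simp_rw [ind_compl]
  rw [Finset.sum_sub_distrib, Finset.sum_const, Finset.card_range, nsmul_eq_mul]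
  field_simp

theorem hasDens_coinfinite {A : Set ℕ} {ρ : ℝ} (h : HasDens A ρ) (h1 : ρ < 1) :
    Aᶜ.Infinite := hasDens_infinite (hasDens_compl h) (by linarith)

/-- A permutation mapping one infinite-coinfinite set onto another. -/
theorem exists_perm_image {A B : Set ℕ} (hA : A.Infinite) (hA' : Aᶜ.Infinite)
    (hB : B.Infinite) (hB' : Bᶜ.Infinite) : ∃ π : Equiv.Perm ℕ, π '' A = B := by
  classical
  have i1 : Infinite A := hA.to_subtype
  have i2 : Infinite (Aᶜ : Set ℕ) := hA'.to_subtype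
  have i3 : Infinite B := hB.to_subtype
  have i4 : Infinite (Bᶜ : Set ℕ) := hB'.to_subtype
  let e : A ≃ B := (Nat.Subtype.orderIsoOfNat A).symm.toEquiv.trans
    (Nat.Subtype.orderIsoOfNat B).toEquiv
  let e' : (Aᶜ : Set ℕ) ≃ (Bᶜ : Set ℕ) := (Nat.Subtype.orderIsoOfNat (Aᶜ : Set ℕ)).symm.toEquiv.trans
    (Nat.Subtype.orderIsoOfNat (Bᶜ : Set ℕ)).toEquiv
  let π : Equiv.Perm ℕ := (Equiv.Set.sumCompl A).symm.trans
    ((Equiv.sumCongr e e').trans (Equiv.Set.sumCompl B))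
  have hπA : ∀ x (hx : x ∈ A), π x = (e ⟨x, hx⟩ : ℕ) := by
    intro x hx
    simp only [π, Equiv.trans_apply, Equiv.Set.sumCompl_symm_apply_of_mem hx,
      Equiv.sumCongr_apply, Sum.map_inl, Equiv.Set.sumCompl_apply_inl]
  have hπA' : ∀ x (hx : x ∉ A), π x = (e' ⟨x, hx⟩ : ℕ) := by
    intro x hx
    simp only [π, Equiv.trans_apply, Equiv.Set.sumCompl_symm_apply_of_notMem hx,
      Equiv.sumCongr_apply, Sum.map_inr, Equiv.Set.sumCompl_apply_inr]
  refine ⟨π, ?_⟩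
  ext y
  constructor
  · rintro ⟨x, hx, rfl⟩
    rw [hπA x hx]
    exact (e ⟨x, hx⟩).2
  · intro hy
    refine ⟨π.symm y, ?_, Equiv.apply_symm_apply _ _⟩
    by_contra hcon
    have h1 := hπA' _ hcon
    rw [Equiv.apply_symm_apply] at h1
    rw [h1] at hy
    exact (e' ⟨_, hcon⟩).2 hy

/-- The set of squares has density zero. -/
theorem squares_dens : HasDens {x : ℕ | ∃ k, k ^ 2 = x} 0 := by
  classical
  unfold HasDens
  refine squeeze_zero (g := fun n : ℕ => ((Nat.sqrt n : ℝ) + 1) / n) (fun n => by positivity) ?_ ?_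
  · intro n
    apply div_le_div_of_nonneg_right _ (by positivity)
    have h1 : ({x : ℕ | ∃ k, k ^ 2 = x} ∩ Set.Iio n) ⊆
        (((Finset.range (Nat.sqrt n + 1)).image (fun k => k ^ 2) : Finset ℕ) : Set ℕ) := by
      rintro x ⟨⟨k, rfl⟩, hx⟩
      rw [Finset.coe_image]
      refine ⟨k, ?_, rfl⟩
      rw [Finset.coe_range, Set.mem_Iio, Nat.lt_succ_iff, Nat.le_sqrt]
      have : k ^ 2 < n := hx
      nlinarith
    have h2 := Set.ncard_le_ncard h1 (Finset.finite_toSet _)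
    rw [Set.ncard_coe_finset] at h2
    have h3 := h2.trans Finset.card_image_le
    rw [Finset.card_range] at h3
    exact_mod_cast h3
  · have h1 : Tendsto (fun n : ℕ => (2 : ℝ) / Real.sqrt n) atTop (𝓝 0) := by
      apply Tendsto.const_div_atTop
      exact Real.tendsto_sqrt_atTop.comp tendsto_natCast_atTop_atTop
    refine squeeze_zero' (Eventually.of_forall fun n => by positivity) ?_ h1
    filter_upwards [eventually_gt_atTop 0] with n hn
    have hn' : (1 : ℝ) ≤ n := by exact_mod_cast hn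
    have h2 : (Nat.sqrt n : ℝ) ≤ Real.sqrt n := Real.nat_sqrt_le_real_sqrt
    have h3 : 1 ≤ Real.sqrt n := by
      rw [Real.one_le_sqrt]
      exact hn'
    have h4 : Real.sqrt n * Real.sqrt n = n := Real.mul_self_sqrt (by positivity)
    rw [div_le_div_iff₀ (by positivity) (by positivity)]
    nlinarith

theorem squares_infinite : ({x : ℕ | ∃ k, k ^ 2 = x}).Infinite := by
  have : {x : ℕ | ∃ k, k ^ 2 = x} = Set.range (fun k : ℕ => k ^ 2) := by
    ext x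
    simp
  rw [this]
  apply Set.infinite_range_of_injective
  intro a b hab
  exact Nat.pow_left_injective (by norm_num) hab

/-- Every infinite-coinfinite set is moved away from a nonzero density. -/
theorem exists_move {A : Set ℕ} (hA : A.Infinite) (hA' : Aᶜ.Infinite) {ρ : ℝ} (hρ : ρ ≠ 0) :
    ∃ π : Equiv.Perm ℕ, ¬ HasDens (π '' A) ρ := by
  obtain ⟨π, hπ⟩ := exists_perm_image hA hA' squares_infinite
    (hasDens_coinfinite squares_dens (by norm_num))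
  refine ⟨π, fun h => hρ ?_⟩
  rw [hπ] at h
  exact tendsto_nhds_unique h squares_dens

/-- The family of all sets of density `ρ` is a witness. -/
theorem witness_univ {ρ : ℝ} (h0 : 0 < ρ) (h1 : ρ < 1) (π : Equiv.Perm ℕ) :
    ∃ A : Set ℕ, A.Infinite ∧ Aᶜ.Infinite ∧ HasDens A ρ ∧ HasDens (π '' A) ρ := by
  obtain ⟨Z, hZ⟩ := exists_dens h0.le h1.le
  obtain ⟨σ, hσ⟩ := merging_dens (fun j => if j = 0 then π else Equiv.refl ℕ)
  have h2 : HasDens (σ '' (σ.symm '' Z)) ρ := by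
    rw [Equiv.image_symm_image]
    exact hZ
  have h3 := hσ _ _ h2 0
  have h4 := hσ _ _ h2 1
  rw [if_pos rfl] at h3
  rw [if_neg (by norm_num), Equiv.coe_refl, Set.image_id] at h4
  exact ⟨_, hasDens_infinite h4 h0, hasDens_coinfinite h4 h1, h4, h3⟩

theorem dd_spec {ρ : ℝ} (h0 : 0 < ρ) (h1 : ρ < 1) : ∃ 𝒜 : Set (Set ℕ),
    (∀ A ∈ 𝒜, A.Infinite ∧ Aᶜ.Infinite ∧ HasDens A ρ) ∧
    (∀ π : Equiv.Perm ℕ, ∃ A ∈ 𝒜, HasDens (π '' A) ρ) ∧ #𝒜 = dd ρ := by
  have hne : {κ : Cardinal.{0} | ∃ 𝒜 : Set (Set ℕ),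
      (∀ A ∈ 𝒜, A.Infinite ∧ Aᶜ.Infinite ∧ HasDens A ρ) ∧
      (∀ π : Equiv.Perm ℕ, ∃ A ∈ 𝒜, HasDens (π '' A) ρ) ∧ #𝒜 = κ}.Nonempty := by
    refine ⟨_, {A | A.Infinite ∧ Aᶜ.Infinite ∧ HasDens A ρ}, fun A hA => hA, fun π => ?_, rfl⟩
    obtain ⟨A, a1, a2, a3, a4⟩ := witness_univ h0 h1 π
    exact ⟨A, ⟨a1, a2, a3⟩, a4⟩
  exact csInf_mem hne

theorem dd_le {ρ : ℝ} (h0 : 0 < ρ) (h1 : ρ < 1) {𝒜 : Set (Set ℕ)}
    (ha : ∀ A ∈ 𝒜, HasDens A ρ)
    (hb : ∀ π : Equiv.Perm ℕ, ∃ A ∈ 𝒜, HasDens (π '' A) ρ) : dd ρ ≤ #𝒜 :=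
  csInf_le' ⟨𝒜, fun A hA => ⟨hasDens_infinite (ha A hA) h0, hasDens_coinfinite (ha A hA) h1,
    ha A hA⟩, hb, rfl⟩

/-- Countable unions of families moved by single permutations are moved by a single
permutation. -/
theorem sigma_ideal {ρ : ℝ} (𝒳 : ℕ → Set (Set ℕ))
    (h : ∀ k, ∃ π : Equiv.Perm ℕ, ∀ A ∈ 𝒳 k, ¬ HasDens (π '' A) ρ) :
    ∃ π : Equiv.Perm ℕ, ∀ A, (∃ k, A ∈ 𝒳 k) → ¬ HasDens (π '' A) ρ := by
  choose θ hθ using h
  obtain ⟨π, hπ⟩ := merging_dens θ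
  refine ⟨π, ?_⟩
  rintro A ⟨k, hk⟩ hA
  exact hθ k A hk (hπ A ρ hA k)

theorem aleph0_lt_dd {ρ : ℝ} (h0 : 0 < ρ) (h1 : ρ < 1) : ℵ₀ < dd ρ := by
  by_contra hcon
  obtain ⟨𝒜, ha, hb, hc⟩ := dd_spec h0 h1
  rw [← hc, not_lt, Cardinal.le_aleph0_iff_set_countable] at hcon
  have hne : 𝒜.Nonempty := by
    obtain ⟨A, hA, -⟩ := hb (Equiv.refl ℕ)
    exact ⟨A, hA⟩
  obtain ⟨g, hg⟩ := hcon.exists_eq_range hne
  obtain ⟨π, hπ⟩ := sigma_ideal (ρ := ρ) (fun k => {g k}) (by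
    intro k
    have hk : g k ∈ 𝒜 := by
      rw [hg]
      exact ⟨k, rfl⟩
    obtain ⟨π, hπ⟩ := exists_move (ha _ hk).1 (ha _ hk).2.1 h0.ne'
    refine ⟨π, fun A hA => ?_⟩
    rw [Set.mem_singleton_iff.mp hA]
    exact hπ)
  obtain ⟨A, hA, hA'⟩ := hb π
  rw [hg] at hA
  obtain ⟨k, hk⟩ := hA
  exact hπ A ⟨k, hk.symm⟩ hA'

end Helper57.Dens
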