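import Mathlib

open Filter Topology Cardinal

namespace Helper57.Dens

/-- `A` has density `ρ`. -/
def HasDens (A : Set ℕ) (ρ : ℝ) : Prop :=
  Tendsto (fun n : ℕ => ((A ∩ Set.Iio n).ncard : ℝ) / n) atTop (𝓝 ρ)

/-- The dual density number `𝔡𝔡^⊥_{{ρ}, all}`: the least size of a family of
infinite-coinfinite sets of density `ρ` such that every permutation of `ω` maps some member to
a set of density `ρ`. -/
noncomputable def dd (ρ : ℝ) : Cardinal.{0} :=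
  sInf {κ : Cardinal.{0} | ∃ 𝒜 : Set (Set ℕ),
    (∀ A ∈ 𝒜, A.Infinite ∧ Aᶜ.Infinite ∧ HasDens A ρ) ∧
    (∀ π : Equiv.Perm ℕ, ∃ A ∈ 𝒜, HasDens (π '' A) ρ) ∧ #𝒜 = κ}

end Helper57.Dens
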