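import Mathlib

open Filter Topology

namespace Helper57.Dens

section Order

/-- A permutation sorting the natural numbers by an injective key. -/
theorem exists_perm_of_key (f : ℕ → ℕ) (hf : Function.Injective f) :
    ∃ π : Equiv.Perm ℕ, ∀ x y, π x < π y ↔ f x < f y := by
  classical
  have : Infinite (Set.range f) := Set.infinite_coe_iff.mpr (Set.infinite_range_of_injective hf)
  let e : ℕ ≃ Set.range f := Equiv.ofInjective f hf
  let o : ℕ ≃o Set.range f := Nat.Subtype.orderIsoOfNat (Set.range f)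
  refine ⟨e.trans o.symm.toEquiv, fun x y => ?_⟩
  show o.symm (e x) < o.symm (e y) ↔ f x < f y
  rw [o.symm.lt_iff_lt]
  exact Iff.rfl

variable (θ : ℕ → Equiv.Perm ℕ)

/-- The sublevel sets of the minimum of the weighted positions. -/
def SS (m : ℕ) : Finset ℕ :=
  (Finset.range m).biUnion (fun j => (Finset.range (2 ^ (m - j - 1))).image (θ j).symm)

theorem mem_SS {m x : ℕ} : x ∈ SS θ m ↔ ∃ j < m, θ j x < 2 ^ (m - j - 1) := by
  unfold SS
  simp only [Finset.mem_biUnion, Finset.mem_range, Finset.mem_image]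
  constructor
  · rintro ⟨j, hj, i, hi, rfl⟩
    exact ⟨j, hj, by rwa [Equiv.apply_symm_apply]⟩
  · rintro ⟨j, hj, h⟩
    exact ⟨j, hj, θ j x, h, by rw [Equiv.symm_apply_apply]⟩

theorem SS_mono {m n : ℕ} (h : m ≤ n) : SS θ m ⊆ SS θ n := by
  intro x hx
  rw [mem_SS] at hx ⊢
  obtain ⟨j, hj, hx⟩ := hx
  refine ⟨j, by omega, lt_of_lt_of_le hx (Nat.pow_le_pow_right (by norm_num) (by omega))⟩

theorem card_SS (m : ℕ) : (SS θ m).card ≤ 2 ^ m := by
  unfold SS
  refine Finset.card_biUnion_le.trans ?_
  have h1 : ∀ j ∈ Finset.range m,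
      ((Finset.range (2 ^ (m - j - 1))).image (θ j).symm).card ≤ 2 ^ (m - 1 - j) := by
    intro j _
    refine Finset.card_image_le.trans ?_
    rw [Finset.card_range]
    apply le_of_eq
    congr 1
    omega
  refine (Finset.sum_le_sum h1).trans ?_
  rw [Finset.sum_range_reflect (fun j => 2 ^ j) m]
  have h2 : ∀ m : ℕ, ∑ j ∈ Finset.range m, 2 ^ j ≤ 2 ^ m := by
    intro m
    induction m with
    | zero => simp
    | succ m ih =>
      rw [Finset.sum_range_succ, pow_succ]
      omega
  exact h2 m

theorem exists_mem_SS (x : ℕ) : ∃ m, x ∈ SS θ m := by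
  refine ⟨θ 0 x + 1, ?_⟩
  rw [mem_SS]
  refine ⟨0, by omega, ?_⟩
  have : θ 0 x + 1 - 0 - 1 = θ 0 x := by omega
  rw [this]
  exact Nat.lt_two_pow_self

/-- The index of the block of `x`. -/
noncomputable def blk (x : ℕ) : ℕ := by
  classical
  exact Nat.find (exists_mem_SS θ x)

theorem mem_SS_blk (x : ℕ) : x ∈ SS θ (blk θ x) := by
  classical
  exact Nat.find_spec (exists_mem_SS θ x)

theorem blk_le_iff {x m : ℕ} : blk θ x ≤ m ↔ x ∈ SS θ m := by
  classical
  constructor
  · intro h
    exact SS_mono θ h (mem_SS_blk θ x)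
  · intro h
    exact Nat.find_min' _ h

/-- The `i`-th question in the block `m`: with `i` coding `(j, a, b)`,
is `2 ^ b * θ j x < a * 2 ^ m`? -/
def qq (m x i : ℕ) : Prop :=
  2 ^ (Nat.unpair (Nat.unpair i).2).2 * θ (Nat.unpair i).1 x <
    (Nat.unpair (Nat.unpair i).2).1 * 2 ^ m

instance (m x i : ℕ) : Decidable (qq θ m x i) := by
  unfold qq
  infer_instance

/-- The code of the first `i` answers. -/
def code (m x : ℕ) : ℕ → ℕ
  | 0 => 0
  | i + 1 => 2 * code m x i + (if qq θ m x i then 0 else 1)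

theorem code_lt (m x i : ℕ) : code θ m x i < 2 ^ i := by
  induction i with
  | zero => simp [code]
  | succ i ih =>
    rw [code, pow_succ]
    split_ifs <;> omega

theorem code_succ_div (m x i : ℕ) : code θ m x (i + 1) / 2 = code θ m x i := by
  rw [code]
  split_ifs <;> omega

theorem code_mono {m x y i k : ℕ} (hik : i ≤ k) (h : code θ m x k ≤ code θ m y k) :
    code θ m x i ≤ code θ m y i := by
  induction k, hik using Nat.le_induction with
  | base => exact h
  | succ k _ ih =>
    apply ih
    rw [← code_succ_div, ← code_succ_div θ m y]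
    exact Nat.div_le_div_right h

theorem qq_iff_of_code {m x y i k : ℕ} (hik : i < k) (h : code θ m x k = code θ m y k) :
    qq θ m x i ↔ qq θ m y i := by
  have h1 : code θ m x (i + 1) = code θ m y (i + 1) :=
    le_antisymm (code_mono θ hik h.le) (code_mono θ hik h.ge)
  rw [code, code] at h1
  by_cases hx : qq θ m x i
  · by_cases hy : qq θ m y i
    · exact ⟨fun _ => hy, fun _ => hx⟩
    · rw [if_pos hx, if_neg hy] at h1
      omega
  · by_cases hy : qq θ m y i
    · rw [if_neg hx, if_pos hy] at h1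
      omega
    · exact ⟨fun h => absurd h hx, fun h => absurd h hy⟩

/-- a bound for the elements of the block -/
noncomputable def hb (m : ℕ) : ℕ := (SS θ m).sup id + 1

theorem lt_hb {m x : ℕ} (h : x ∈ SS θ m) : x < hb θ m := by
  unfold hb
  have : x ≤ (SS θ m).sup id := Finset.le_sup (f := id) h
  omega

/-- the offset of the block -/
noncomputable def off (m : ℕ) : ℕ := ∑ k ∈ Finset.range m, 2 ^ k * hb θ k

/-- the sorting key -/
noncomputable def key (x : ℕ) : ℕ :=
  off θ (blk θ x) + (code θ (blk θ x) x (blk θ x) * hb θ (blk θ x) + x)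

theorem key_inner (x : ℕ) :
    code θ (blk θ x) x (blk θ x) * hb θ (blk θ x) + x < 2 ^ (blk θ x) * hb θ (blk θ x) := by
  have h1 := lt_hb θ (mem_SS_blk θ x)
  have h2 := code_lt θ (blk θ x) x (blk θ x)
  have h3 : (code θ (blk θ x) x (blk θ x) + 1) * hb θ (blk θ x) ≤
      2 ^ (blk θ x) * hb θ (blk θ x) := Nat.mul_le_mul_right _ h2
  rw [add_mul, one_mul] at h3
  omega

theorem key_lt_of_blk {x y : ℕ} (h : blk θ x < blk θ y) : key θ x < key θ y := by
  unfold key
  have h1 := key_inner θ x
  have h2 : off θ (blk θ x + 1) ≤ off θ (blk θ y) := by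
    unfold off
    exact Finset.sum_le_sum_of_subset (Finset.range_mono h)
  have h3 : off θ (blk θ x + 1) = off θ (blk θ x) + 2 ^ (blk θ x) * hb θ (blk θ x) := by
    unfold off
    rw [Finset.sum_range_succ]
  omega

theorem blk_le_of_key {x y : ℕ} (h : key θ x ≤ key θ y) : blk θ x ≤ blk θ y := by
  by_contra hcon
  have := key_lt_of_blk θ (not_le.mp hcon)
  omega

theorem code_le_of_key {x y m : ℕ} (hx : blk θ x = m) (hy : blk θ y = m)
    (h : key θ x ≤ key θ y) : code θ m x m ≤ code θ m y m := by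
  unfold key at h
  rw [hx, hy] at h
  by_contra hcon
  have h1 : (code θ m y m + 1) * hb θ m ≤ code θ m x m * hb θ m :=
    Nat.mul_le_mul_right _ (not_le.mp hcon)
  have h2 : y < hb θ m := by
    rw [← hy]
    exact lt_hb θ (mem_SS_blk θ y)
  rw [add_mul, one_mul] at h1
  omega

theorem key_inj : Function.Injective (key θ) := by
  intro x y h
  have h1 : blk θ x = blk θ y :=
    le_antisymm (blk_le_of_key θ h.le) (blk_le_of_key θ h.ge)
  have h2 := le_antisymm (code_le_of_key θ h1 rfl h.le) (code_le_of_key θ rfl h1 h.ge)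
  unfold key at h
  rw [h1, h2] at h
  omega

end Order

section Sums

/-- Partial sums along a permutation. -/
noncomputable def psum (π : Equiv.Perm ℕ) (w : ℕ → ℝ) (n : ℕ) : ℝ :=
  ∑ i ∈ Finset.range n, w (π.symm i)

theorem psum_eq (π : Equiv.Perm ℕ) (w : ℕ → ℝ) (n : ℕ) :
    psum π w n = ∑ x ∈ (Finset.range n).image π.symm, w x := by
  unfold psum
  rw [Finset.sum_image]
  intro a _ b _ hab
  exact π.symm.injective hab

theorem mem_image_symm {π : Equiv.Perm ℕ} {n x : ℕ} :
    x ∈ (Finset.range n).image π.symm ↔ π x < n := by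
  rw [Finset.mem_image]
  constructor
  · rintro ⟨i, hi, rfl⟩
    rw [Equiv.apply_symm_apply]
    exact Finset.mem_range.mp hi
  · intro h
    exact ⟨π x, Finset.mem_range.mpr h, Equiv.symm_apply_apply _ _⟩

/-- The sum over a finite set which is convex for the order of `π`. -/
theorem convex_sum {π : Equiv.Perm ℕ} {w : ℕ → ℝ} {N : ℕ} {D : ℝ} (hD : 0 ≤ D)
    (h : ∀ n ≤ N, |psum π w n| ≤ D) {Q : Finset ℕ} (hQN : ∀ x ∈ Q, π x < N)
    (hQ : ∀ x ∈ Q, ∀ z ∈ Q, ∀ y, π x ≤ π y → π y ≤ π z → y ∈ Q) :
    |∑ x ∈ Q, w x| ≤ 2 * D := by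
  classical
  rcases Q.eq_empty_or_nonempty with hQe | hQe
  · subst hQe
    simpa using hD
  · obtain ⟨a, ha, hamin⟩ := Finset.exists_min_image Q π hQe
    obtain ⟨b, hb, hbmax⟩ := Finset.exists_max_image Q π hQe
    have h1 : psum π w (π b + 1) = psum π w (π a) + ∑ x ∈ Q, w x := by
      rw [psum_eq, psum_eq, ← Finset.sum_union]
      · congr 1
        ext x
        rw [Finset.mem_union, mem_image_symm, mem_image_symm]
        constructor
        · intro hx
          by_cases hx' : π x < π a
          · exact Or.inl hx'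
          · exact Or.inr (hQ a ha b hb x (not_lt.mp hx') (Nat.lt_succ_iff.mp hx))
        · rintro (hx | hx)
          · have := hamin b hb
            omega
          · have := hbmax x hx
            omega
      · rw [Finset.disjoint_left]
        intro x hx hx'
        rw [mem_image_symm] at hx
        have := hamin x hx'
        omega
    have h2 := h (π b + 1) (hQN b hb)
    have h3 := h (π a) (hQN a ha).le
    have h4 : ∑ x ∈ Q, w x = psum π w (π b + 1) - psum π w (π a) := by linarith
    rw [h4]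
    refine (abs_sub _ _).trans ?_
    linarith

end Sums

end Helper57.Dens
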