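import Pool.Agent.Helper57.Dens.Basic

open Filter Topology Cardinal

namespace Helper57.Dens

section Lift

/-- The `n`-th element of `B`. -/
noncomputable def nt (B : Set ℕ) (n : ℕ) : ℕ := Nat.nth (fun x => x ∈ B) n

/-- The number of elements of `B` below `n`. -/
noncomputable def ct (B : Set ℕ) (n : ℕ) : ℕ := by
  classical
  exact Nat.count (fun x => x ∈ B) n

theorem ct_nt {B : Set ℕ} (hB : B.Infinite) (n : ℕ) : ct B (nt B n) = n := by
  classical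
  exact Nat.count_nth_of_infinite hB n

theorem nt_ct {B : Set ℕ} {x : ℕ} (hx : x ∈ B) : nt B (ct B x) = x := by
  classical
  exact Nat.nth_count hx

theorem nt_mem {B : Set ℕ} (hB : B.Infinite) (n : ℕ) : nt B n ∈ B :=
  Nat.nth_mem_of_infinite hB n

theorem nt_inj {B : Set ℕ} (hB : B.Infinite) : Function.Injective (nt B) :=
  (Nat.nth_strictMono hB).injective

theorem nt_lt_iff {B : Set ℕ} (hB : B.Infinite) {a n : ℕ} : nt B a < n ↔ a < ct B n := by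
  classical
  exact (Nat.lt_nth_iff_count_lt hB).symm

theorem ct_eq_ncard (B : Set ℕ) (n : ℕ) : (B ∩ Set.Iio n).ncard = ct B n := by
  classical
  have h1 : B ∩ Set.Iio n = ((Finset.range n).filter (fun x => x ∈ B) : Finset ℕ) := by
    ext x
    simp [and_comm]
  rw [h1, Set.ncard_coe_finset]
  exact (Nat.count_eq_card_filter_range _ _).symm

theorem hasDens_iff (B : Set ℕ) (ρ : ℝ) :
    HasDens B ρ ↔ Tendsto (fun n : ℕ => (ct B n : ℝ) / n) atTop (𝓝 ρ) := by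
  unfold HasDens
  simp_rw [ct_eq_ncard]

/-- The copy of `A` inside `B`. -/
def lft (B A : Set ℕ) : Set ℕ := nt B '' A

theorem lft_subset {B : Set ℕ} (hB : B.Infinite) (A : Set ℕ) : lft B A ⊆ B := by
  rintro _ ⟨a, -, rfl⟩
  exact nt_mem hB a

theorem ct_lft {B : Set ℕ} (hB : B.Infinite) (A : Set ℕ) (n : ℕ) :
    ct (lft B A) n = ct A (ct B n) := by
  rw [← ct_eq_ncard, ← ct_eq_ncard]
  have h1 : lft B A ∩ Set.Iio n = nt B '' (A ∩ Set.Iio (ct B n)) := by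
    ext x
    constructor
    · rintro ⟨⟨a, ha, rfl⟩, hx⟩
      exact ⟨a, ⟨ha, (nt_lt_iff hB).mp hx⟩, rfl⟩
    · rintro ⟨a, ⟨ha, ha'⟩, rfl⟩
      exact ⟨⟨a, ha, rfl⟩, (nt_lt_iff hB).mpr ha'⟩
  rw [h1, Set.ncard_image_of_injective _ (nt_inj hB)]

theorem ct_tendsto {B : Set ℕ} (hB : B.Infinite) : Tendsto (ct B) atTop atTop := by
  rw [tendsto_atTop]
  intro m
  filter_upwards [eventually_ge_atTop (nt B m + 1)] with n hn
  have : m < ct B n := (nt_lt_iff hB).mp (by omega)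
  omega

theorem hasDens_lft {B A : Set ℕ} {σ ρ : ℝ} (hB : B.Infinite) (h1 : HasDens B σ)
    (h2 : HasDens A ρ) : HasDens (lft B A) (ρ * σ) := by
  rw [hasDens_iff] at h1 h2 ⊢
  have h3 := (h2.comp (ct_tendsto hB)).mul h1
  refine h3.congr (fun n => ?_)
  show (ct A (ct B n) : ℝ) / (ct B n : ℝ) * ((ct B n : ℝ) / n) = (ct (lft B A) n : ℝ) / n
  rw [ct_lft hB]
  by_cases h0 : (ct B n : ℝ) = 0
  · have h4 : ct B n = 0 := by exact_mod_cast h0
    have h5 : ct A 0 = 0 := by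
      rw [← ct_eq_ncard]
      simp
    rw [h4, h5]
    simp
  · field_simp

theorem hasDens_union {A B : Set ℕ} {α β : ℝ} (hAB : Disjoint A B) (h1 : HasDens A α)
    (h2 : HasDens B β) : HasDens (A ∪ B) (α + β) := by
  unfold HasDens at h1 h2 ⊢
  refine (h1.add h2).congr (fun n => ?_)
  rw [← add_div]
  congr 1
  have h3 : (A ∪ B) ∩ Set.Iio n = (A ∩ Set.Iio n) ∪ (B ∩ Set.Iio n) :=
    Set.union_inter_distrib_right _ _ _
  have h4 : Disjoint (A ∩ Set.Iio n) (B ∩ Set.Iio n) :=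
    hAB.mono Set.inter_subset_left Set.inter_subset_left
  rw [h3, Set.ncard_union_eq h4 ((Set.finite_Iio n).subset Set.inter_subset_right)
    ((Set.finite_Iio n).subset Set.inter_subset_right)]
  push_cast
  rfl

/-- The set which is the copy of `A` inside `B` and the copy of `C` inside the complement. -/
def mix (B A C : Set ℕ) : Set ℕ := lft B A ∪ lft Bᶜ C

theorem hasDens_mix {B A C : Set ℕ} {σ ρ τ : ℝ} (hB : B.Infinite) (hB' : Bᶜ.Infinite)
    (h1 : HasDens B σ) (h2 : HasDens A ρ) (h3 : HasDens C τ) :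
    HasDens (mix B A C) (σ * ρ + (1 - σ) * τ) := by
  have h4 := hasDens_lft hB h1 h2
  have h5 := hasDens_lft hB' (hasDens_compl h1) h3
  have h6 : Disjoint (lft B A) (lft Bᶜ C) :=
    Disjoint.mono (lft_subset hB A) (lft_subset hB' C) disjoint_compl_right
  have h7 := hasDens_union h6 h4 h5
  have h8 : ρ * σ + τ * (1 - σ) = σ * ρ + (1 - σ) * τ := by ring
  rwa [h8] at h7

/-- The permutation induced by `π` between `B` and its image. -/
noncomputable def rel (π : Equiv.Perm ℕ) (B : Set ℕ) (hB : B.Infinite) : Equiv.Perm ℕ where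
  toFun a := ct (π '' B) (π (nt B a))
  invFun a := ct B (π.symm (nt (π '' B) a))
  left_inv a := by
    show ct B (π.symm (nt (π '' B) (ct (π '' B) (π (nt B a))))) = a
    rw [nt_ct (Set.mem_image_of_mem _ (nt_mem hB a)), Equiv.symm_apply_apply, ct_nt hB]
  right_inv a := by
    have hB' : (π '' B).Infinite := hB.image π.injective.injOn
    show ct (π '' B) (π (nt B (ct B (π.symm (nt (π '' B) a))))) = a
    have h1 : π.symm (nt (π '' B) a) ∈ B := by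
      obtain ⟨b, hb, hb'⟩ := nt_mem hB' a
      rw [← hb', Equiv.symm_apply_apply]
      exact hb
    rw [nt_ct h1, Equiv.apply_symm_apply, ct_nt hB']

theorem image_lft (π : Equiv.Perm ℕ) {B : Set ℕ} (hB : B.Infinite) (A : Set ℕ) :
    π '' (lft B A) = lft (π '' B) (rel π B hB '' A) := by
  have h1 : ∀ a, nt (π '' B) (rel π B hB a) = π (nt B a) := by
    intro a
    exact nt_ct (Set.mem_image_of_mem _ (nt_mem hB a))
  ext x
  constructor
  · rintro ⟨_, ⟨a, ha, rfl⟩, rfl⟩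
    exact ⟨_, ⟨a, ha, rfl⟩, h1 a⟩
  · rintro ⟨_, ⟨a, ha, rfl⟩, rfl⟩
    exact ⟨_, ⟨a, ha, rfl⟩, (h1 a).symm⟩

theorem image_mix (π : Equiv.Perm ℕ) {B : Set ℕ} (hB : B.Infinite) (hB' : Bᶜ.Infinite)
    (A C : Set ℕ) :
    π '' (mix B A C) = mix (π '' B) (rel π B hB '' A) (rel π Bᶜ hB' '' C) := by
  unfold mix
  rw [Set.image_union, image_lft π hB, image_lft π hB', Set.image_compl_eq π.bijective]

end Lift

section Closure

/-- There is a family of at most `κ` sets of density `ρ` such that every permutation maps some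
member to a set of density `ρ`. -/
def Wit (ρ : ℝ) (κ : Cardinal.{0}) : Prop :=
  ∃ 𝒜 : Set (Set ℕ), (∀ A ∈ 𝒜, HasDens A ρ) ∧
    (∀ π : Equiv.Perm ℕ, ∃ A ∈ 𝒜, HasDens (π '' A) ρ) ∧ #𝒜 ≤ κ

theorem wit_zero {κ : Cardinal.{0}} (hκ : 1 ≤ κ) : Wit 0 κ := by
  have h : HasDens (∅ : Set ℕ) 0 := by
    unfold HasDens
    simp
  refine ⟨{∅}, fun A hA => ?_, fun π => ⟨∅, rfl, ?_⟩, ?_⟩
  · rw [Set.mem_singleton_iff.mp hA]
    exact h
  · rw [Set.image_empty]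
    exact h
  · rw [Cardinal.mk_singleton]
    exact hκ

theorem wit_one {κ : Cardinal.{0}} (hκ : 1 ≤ κ) : Wit 1 κ := by
  have h : HasDens (Set.univ : Set ℕ) 1 := by
    have h0 : HasDens (∅ : Set ℕ) 0 := by
      unfold HasDens
      simp
    have := hasDens_compl h0
    simpa using this
  refine ⟨{Set.univ}, fun A hA => ?_, fun π => ⟨Set.univ, rfl, ?_⟩, ?_⟩
  · rw [Set.mem_singleton_iff.mp hA]
    exact h
  · rw [Set.image_univ, π.surjective.range_eq]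
    exact h
  · rw [Cardinal.mk_singleton]
    exact hκ

theorem wit_iff {ρ : ℝ} (h0 : 0 < ρ) (h1 : ρ < 1) {κ : Cardinal.{0}} : Wit ρ κ ↔ dd ρ ≤ κ := by
  constructor
  · rintro ⟨𝒜, ha, hb, hc⟩
    exact (dd_le h0 h1 ha hb).trans hc
  · intro h
    obtain ⟨𝒜, ha, hb, hc⟩ := dd_spec h0 h1
    exact ⟨𝒜, fun A hA => (ha A hA).2.2, hb, hc.trans_le h⟩

theorem wit_mix {σ ρ τ : ℝ} {κ : Cardinal.{0}} (hκ : ℵ₀ ≤ κ) (h0 : 0 < σ) (h1 : σ < 1)
    (hσ : Wit σ κ) (hρ : Wit ρ κ) (hτ : Wit τ κ) : Wit (σ * ρ + (1 - σ) * τ) κ := by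
  obtain ⟨𝒮, s1, s2, s3⟩ := hσ
  obtain ⟨ℛ, r1, r2, r3⟩ := hρ
  obtain ⟨𝒯, t1, t2, t3⟩ := hτ
  refine ⟨Set.range (fun q : 𝒮 × ℛ × 𝒯 => mix q.1.1 q.2.1.1 q.2.2.1), ?_, ?_, ?_⟩
  · rintro _ ⟨⟨B, A, C⟩, rfl⟩
    have hB := s1 _ B.2
    exact hasDens_mix (hasDens_infinite hB h0) (hasDens_coinfinite hB h1) hB (r1 _ A.2)
      (t1 _ C.2)
  · intro π
    obtain ⟨B, hB, hB'⟩ := s2 π
    have i1 : B.Infinite := hasDens_infinite (s1 B hB) h0
    have i2 : Bᶜ.Infinite := hasDens_coinfinite (s1 B hB) h1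
    obtain ⟨A, hA, hA'⟩ := r2 (rel π B i1)
    obtain ⟨C, hC, hC'⟩ := t2 (rel π Bᶜ i2)
    refine ⟨_, ⟨⟨⟨B, hB⟩, ⟨A, hA⟩, ⟨C, hC⟩⟩, rfl⟩, ?_⟩
    show HasDens (π '' (mix B A C)) _
    rw [image_mix π i1 i2]
    exact hasDens_mix (hasDens_infinite hB' h0) (hasDens_coinfinite hB' h1) hB' hA' hC'
  · refine Cardinal.mk_range_le.trans ?_
    rw [Cardinal.mk_prod, Cardinal.mk_prod, Cardinal.lift_id, Cardinal.lift_id]
    simp only [Cardinal.lift_id]
    calc #𝒮 * (#ℛ * #𝒯) ≤ κ * (κ * κ) := mul_le_mul' s3 (mul_le_mul' r3 t3)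
      _ = κ := by rw [Cardinal.mul_eq_self hκ, Cardinal.mul_eq_self hκ]

/-- For a cardinal `κ`, the set of the densities `ρ` in `(0, 1)` with `dd ρ ≤ κ`, together
with `0` and `1`. -/
def DK (κ : Cardinal.{0}) : Set ℝ := {ρ | ρ = 0 ∨ ρ = 1 ∨ (0 < ρ ∧ ρ < 1 ∧ dd ρ ≤ κ)}

theorem wit_of_DK {κ : Cardinal.{0}} (hκ : ℵ₀ ≤ κ) {ρ : ℝ} (h : ρ ∈ DK κ) : Wit ρ κ := by
  have h1 : 1 ≤ κ := Cardinal.one_le_aleph0.trans hκ
  rcases h with rfl | rfl | ⟨h0, h1', h2⟩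
  · exact wit_zero h1
  · exact wit_one h1
  · exact (wit_iff h0 h1').mpr h2

/-- The set `DK κ` is closed under mixtures with a weight in `DK κ`. -/
theorem DK_mix {κ : Cardinal.{0}} {σ ρ τ : ℝ} (hσ : σ ∈ DK κ) (hρ : ρ ∈ DK κ) (hτ : τ ∈ DK κ) :
    σ * ρ + (1 - σ) * τ ∈ DK κ := by
  rcases hσ with rfl | rfl | ⟨h0, h1, h2⟩
  · simpa using hτ
  · simpa using hρ
  · have hκ : ℵ₀ ≤ κ := (aleph0_lt_dd h0 h1).le.trans h2
    have hW := wit_mix hκ h0 h1 ((wit_iff h0 h1).mpr h2) (wit_of_DK hκ hρ) (wit_of_DK hκ hτ)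
    have r0 : ∀ r ∈ DK κ, 0 ≤ r ∧ r ≤ 1 := by
      rintro r (rfl | rfl | ⟨h3, h4, -⟩)
      · exact ⟨le_rfl, zero_le_one⟩
      · exact ⟨zero_le_one, le_rfl⟩
      · exact ⟨h3.le, h4.le⟩
    have r1 := r0 ρ hρ
    have r2 := r0 τ hτ
    set x := σ * ρ + (1 - σ) * τ with hx
    have x0 : 0 ≤ x := by
      have := mul_nonneg h0.le r1.1
      have := mul_nonneg (sub_nonneg.mpr h1.le) r2.1
      linarith
    have x1 : x ≤ 1 := by
      have := mul_le_mul_of_nonneg_left r1.2 h0.le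
      have := mul_le_mul_of_nonneg_left r2.2 (sub_nonneg.mpr h1.le)
      linarith
    by_cases e0 : x = 0
    · exact Or.inl e0
    · by_cases e1 : x = 1
      · exact Or.inr (Or.inl e1)
      · have y0 : 0 < x := lt_of_le_of_ne x0 (Ne.symm e0)
        have y1 : x < 1 := lt_of_le_of_ne x1 e1
        exact Or.inr (Or.inr ⟨y0, y1, (wit_iff y0 y1).mp hW⟩)

end Closure

section Cofinality

/-- `dd ρ` has uncountable cofinality. -/
theorem aleph0_lt_cof {ρ : ℝ} (h0 : 0 < ρ) (h1 : ρ < 1) : ℵ₀ < (dd ρ).ord.cof := by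
  by_contra hcon
  rw [not_lt] at hcon
  obtain ⟨𝒜, ha, hb, hc⟩ := dd_spec h0 h1
  have hinf : ℵ₀ < dd ρ := aleph0_lt_dd h0 h1
  have hcard : #𝒜 = #(dd ρ).ord.ToType := by rw [Cardinal.mk_ord_toType, hc]
  obtain ⟨e⟩ := Cardinal.eq.mp hcard
  obtain ⟨S, hS, hSc⟩ := Order.exists_cof_eq (dd ρ).ord.ToType
  rw [Ordinal.cof_toType] at hSc
  have hScount : S.Countable := by
    rw [← Cardinal.le_aleph0_iff_set_countable, hSc]
    exact hcon
  have hSne : S.Nonempty := by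
    obtain ⟨A, hA, -⟩ := hb (Equiv.refl ℕ)
    obtain ⟨s, hs, -⟩ := hS (e ⟨A, hA⟩)
    exact ⟨s, hs⟩
  obtain ⟨g, hg⟩ := hScount.exists_eq_range hSne
  obtain ⟨π, hπ⟩ := sigma_ideal (ρ := ρ)
    (fun k => {A | ∃ hA : A ∈ 𝒜, e ⟨A, hA⟩ ≤ g k}) (by
    intro k
    by_contra hk
    push Not at hk
    -- the piece would be a smaller witness
    have h2 := dd_le h0 h1 (𝒜 := {A | ∃ hA : A ∈ 𝒜, e ⟨A, hA⟩ ≤ g k})
      (fun A ⟨hA, _⟩ => (ha A hA).2.2) hk
    have h3 : #{A | ∃ hA : A ∈ 𝒜, e ⟨A, hA⟩ ≤ g k} ≤ #(Set.Iic (g k)) := by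
      refine Cardinal.mk_le_of_injective
        (f := fun A => ⟨e ⟨A.1, A.2.choose⟩, A.2.choose_spec⟩) ?_
      intro A B hAB
      have h4 := e.injective (congrArg Subtype.val hAB)
      have h5 : A.1 = B.1 := by simpa using h4
      exact Subtype.ext h5
    have h4 : #(Set.Iic (g k)) < dd ρ := by
      have h5 : Set.Iic (g k) = insert (g k) (Set.Iio (g k)) := by
        ext x
        simp [le_iff_eq_or_lt]
      rw [h5]
      refine lt_of_le_of_lt Cardinal.mk_insert_le ?_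
      exact Cardinal.add_lt_of_lt hinf.le (Cardinal.mk_Iio_toType_ord_lt _)
        (Cardinal.one_lt_aleph0.trans hinf)
    exact absurd h2 (not_le.mpr (h3.trans_lt h4)))
  obtain ⟨A, hA, hA'⟩ := hb π
  obtain ⟨s, hs, hs'⟩ := hS (e ⟨A, hA⟩)
  rw [hg] at hs
  obtain ⟨k, rfl⟩ := hs
  exact hπ A ⟨k, hA, hs'⟩ hA'

end Cofinality

end Helper57.Dens
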